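import Pool.Agent.PPS.Bridge
import Pool.Agent.H8.CR.AlgT2
import Pool.Agent.H8.CR.AlgPT3

/-!
# Recognising reduced clique graphs of chordal graphs is in P
-/

namespace Pool.Agent.Results.MP_84daa4_lc.PolyTime

open Pool.Agent.PPS Pool.Agent.H8.CR H87.HC

/-- The set of the words which present a graph that is isomorphic to the reduced clique graph of a
finite chordal graph is decidable in polynomial time. -/
theorem result :
    {w : List Bool | ∃ (n : ℕ) (H : SimpleGraph (Fin n)), w = encode H ∧ IsCR H} ∈ P := by
  classical
  rw [mem_P_iff]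
  refine Pool.Agent.PPS.PT.of_eq PT.decW' (fun w => ?_)
  rw [Bool.eq_iff_iff, decide_eq_true_iff]
  exact decW_iff.symm

end Pool.Agent.Results.MP_84daa4_lc.PolyTime
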